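import Pool.Agent.Y280.Fin2

/-!
# MP_f981b0_an: typical positive contractions of `ℓ_p`

Kept out of the results folder (by helper280; moved by helper271 with helper280's consent to free a
place at MP_f981b0_an).
-/

set_option autoImplicit false
open Finset TopologicalSpace Pool.Agent.Y280
open scoped ENNReal ComplexOrder

namespace Pool.Agent.Y271.Kept.TypicalPositiveContractions

variable {E : Type} [NormedAddCommGroup E] [NormedSpace ℂ E]

/-- The positive contractions (with respect to the coordinates `c`). -/
def PosContr (c : E →ₗ[ℂ] (ℕ → ℂ)) : Set (E →L[ℂ] E) :=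
  {T | ‖T‖ ≤ 1 ∧ ∀ x, (∀ i, 0 ≤ c x i) → ∀ i, 0 ≤ c (T x) i}

/-- **Typical positive contractions of `ℓ_p`, `1 < p < ∞`, have nontrivial closed invariant
subspaces**, in the strong and in the strong* operator topology. The spaces of positive
contractions are completely metrizable. -/
theorem result (p : ℝ) (hp : 1 < p) (c : E →ₗ[ℂ] (ℕ → ℂ)) (hc : IsEllp p c)
    (t : TopologicalSpace (PosContr c)) (ht : t = SOT (PosContr c) ∨ t = SOTStar (PosContr c)) :
    (PosContr c).Nonempty ∧ @IsCompletelyMetrizableSpace _ t ∧ @BaireSpace _ t ∧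
      {T : PosContr c | DenselyInvariant (T : E →L[ℂ] E)} ∈ @residual _ t :=
  result_pos p hp c hc _ rfl t ht

end Pool.Agent.Y271.Kept.TypicalPositiveContractions
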